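import Mathlib
import Pool.Agent.Y268.D3.Stm
import Pool.Agent.H342R2.Kad.Det

/-!
The deterministic inequality in bilinear form: averaging over roots of unity.
-/

open scoped ComplexOrder InnerProductSpace ComplexConjugate
open Finset

noncomputable section

namespace Y576.D3

open H759R2.Kad H711R2.KG Y268.D3

section form

variable {K : Type} [NormedAddCommGroup K] [InnerProductSpace ℂ K]

theorem form_zero {q : Form K} {C : ℝ} (hq : IsForm q C) (ξ : K) : q ξ 0 = 0 := by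
  have h := hq.smul 0 ξ 0
  rw [zero_smul, zero_mul] at h
  exact h

theorem form_sum {q : Form K} {C : ℝ} (hq : IsForm q C) {ι : Type} (s : Finset ι) (f : ι → K)
    (ξ : K) : q ξ (∑ i ∈ s, f i) = ∑ i ∈ s, q ξ (f i) := by
  classical
  induction s using Finset.induction_on with
  | empty => rw [sum_empty, sum_empty, form_zero hq]
  | insert i s hi ih => rw [sum_insert hi, sum_insert hi, hq.add, ih]

theorem form_sum' {q : Form K} {C : ℝ} (hq : IsForm q C) {ι : Type} (s : Finset ι) (f : ι → K)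
    (η : K) : q (∑ i ∈ s, f i) η = ∑ i ∈ s, q (f i) η := by
  rw [hq.herm η, form_sum hq, map_sum]
  refine sum_congr rfl fun i _ => ?_
  rw [hq.herm η]

theorem form_smul' {q : Form K} {C : ℝ} (hq : IsForm q C) (c : ℂ) (ξ η : K) :
    q (c • ξ) η = conj c * q ξ η := by
  rw [hq.herm η, hq.smul, map_mul, ← hq.herm η]

/-- Parseval's identity for a form. -/
theorem form_pars {q : Form K} {C : ℝ} (hq : IsForm q C) (N Q : ℕ)
    (c : ℕ → ℕ → ℂ) (v : ℕ → K)
    (hc : ∀ i ∈ range Q, ∀ j ∈ range Q,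
      ∑ r ∈ range N, conj (c r i) * c r j = if i = j then (N : ℂ) else 0) :
    ∑ r ∈ range N, (q (∑ i ∈ range Q, c r i • v i) (∑ i ∈ range Q, c r i • v i)).re =
      N * ∑ i ∈ range Q, (q (v i) (v i)).re := by
  have h2 : ∀ r ∈ range N, q (∑ i ∈ range Q, c r i • v i) (∑ i ∈ range Q, c r i • v i) =
      ∑ i ∈ range Q, ∑ j ∈ range Q, (conj (c r i) * c r j) * q (v i) (v j) := by
    intro r _
    rw [form_sum' hq]
    refine sum_congr rfl fun i _ => ?_
    rw [form_sum hq]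
    refine sum_congr rfl fun j _ => ?_
    rw [form_smul' hq, hq.smul, mul_assoc]
  have h1 : ∑ r ∈ range N, q (∑ i ∈ range Q, c r i • v i) (∑ i ∈ range Q, c r i • v i) =
      N * ∑ i ∈ range Q, q (v i) (v i) := by
    rw [sum_congr rfl h2, sum_comm, mul_sum]
    refine sum_congr rfl fun i hi => ?_
    rw [sum_comm]
    have h4 : ∀ j ∈ range Q, ∑ r ∈ range N, (conj (c r i) * c r j) * q (v i) (v j) =
        if i = j then (N : ℂ) * q (v i) (v j) else 0 := by
      intro j hj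
      rw [← sum_mul, hc i hi j hj]
      split_ifs <;> simp
    rw [sum_congr rfl h4, sum_ite_eq, if_pos hi]
  rw [← Complex.re_sum, h1, ← Complex.re_sum]
  have h5 : ((N : ℂ) * ∑ i ∈ range Q, q (v i) (v i)) =
      (((N : ℝ) : ℂ)) * ∑ i ∈ range Q, q (v i) (v i) := by norm_num
  rw [h5, Complex.re_ofReal_mul]

end form

theorem prove_det : S_det := by
  intro B _ _ _ K _ _ _ w hw Q₁ Q₂ C hQ₁ hQ₂ t ht ht1 a b ha hb hX U hU θ η Q hQ
  obtain ⟨z, hz1, hz⟩ := det_orth (3 * Q) (by omega)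
  have hpow : ∀ n : ℕ, star (U ^ n) * U ^ n = 1 := by
    intro n
    exact (Unitary.mem_iff.1 (pow_mem hU n)).1
  have hpow' : ∀ n : ℕ, U ^ n * star (U ^ n) = 1 := by
    intro n
    exact (Unitary.mem_iff.1 (pow_mem hU n)).2
  have hnormU : ∀ n : ℕ, ‖U ^ n‖ ≤ 1 := by
    intro n
    rcases subsingleton_or_nontrivial B with hs | hs
    · rw [Subsingleton.elim (U ^ n) 0]
      simp
    · exact (CStarRing.norm_of_mem_unitary (pow_mem hU n)).le
  have hQ0 : (0 : ℝ) < Q := by exact_mod_cast hQ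
  -- the vectors
  set bv : ℕ → K := fun q => w (star U ^ (q + 1)) θ with hbv
  set ev : ℕ → K := fun k => vmap w (U ^ k) η with hev
  set ξ : ℕ → K := fun r => ∑ q ∈ range Q, conj (z r ^ (q + 1)) • bv q with hξ
  set ζ : ℕ → K := fun r => ∑ k ∈ range Q, z r ^ k • ev k with hζ
  set X : ℕ → B := fun r => ∑ n ∈ range (2 * Q - 1), z r ^ (n + 1) • U ^ (n + 1) with hXdef
  have hξs : ∑ r ∈ range (3 * Q), (Q₂ (ξ r) (ξ r)).re =
      (3 * Q : ℕ) * ∑ q ∈ range Q, (Q₂ (bv q) (bv q)).re := by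
    refine form_pars hQ₂ (3 * Q) Q (fun r q => conj (z r ^ (q + 1))) bv ?_
    intro p hp q hq
    rw [mem_range] at hp hq
    have h2 := hz (q + 1) (p + 1) (by omega) (by omega)
    have h3 : ∀ r ∈ range (3 * Q), conj (conj (z r ^ (p + 1))) * conj (z r ^ (q + 1)) =
        conj (z r ^ (q + 1)) * z r ^ (p + 1) := by
      intro r _
      rw [Complex.conj_conj, mul_comm]
    rw [sum_congr rfl h3, h2]
    by_cases hpq : p = q
    · rw [if_pos hpq, if_pos (by omega)]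
    · rw [if_neg hpq, if_neg (by omega)]
  have hζs : ∑ r ∈ range (3 * Q), (Q₁ (ζ r) (ζ r)).re =
      (3 * Q : ℕ) * ∑ q ∈ range Q, (Q₁ (ev q) (ev q)).re := by
    refine form_pars hQ₁ (3 * Q) Q (fun r q => z r ^ q) ev ?_
    intro p hp q hq
    rw [mem_range] at hp hq
    exact hz p q (by omega) (by omega)
  -- the average of the inner products
  have hin : ∀ q k : ℕ, ⟪w (U ^ (q + k + 1)) (bv q), ev k⟫_ℂ = ⟪θ, η⟫_ℂ := by
    intro q k
    have h0 : w (U ^ (q + k + 1)) (bv q) = w (U ^ k) θ := by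
      have h1 : w (U ^ (q + k + 1)) (w (star U ^ (q + 1)) θ) =
          w (U ^ (q + k + 1) * star U ^ (q + 1)) θ := by
        rw [hw.mul]
        rfl
      show w (U ^ (q + k + 1)) (w (star U ^ (q + 1)) θ) = w (U ^ k) θ
      rw [h1]
      congr 2
      have h2 : q + k + 1 = k + (q + 1) := by omega
      rw [h2, pow_add U k (q + 1), ← star_pow, mul_assoc, hpow', mul_one]
    rw [h0]
    show ⟪w (U ^ k) θ, star (w (star (U ^ k))) η⟫_ℂ = ⟪θ, η⟫_ℂ
    rw [ContinuousLinearMap.star_eq_adjoint, ContinuousLinearMap.adjoint_inner_right]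
    have h3 : w (star (U ^ k)) (w (U ^ k) θ) = w (star (U ^ k) * U ^ k) θ := by
      rw [hw.mul]
      rfl
    rw [h3, hpow, hw.one]
    rfl
  have hexp : ∀ r, ⟪w (X r) (ξ r), ζ r⟫_ℂ =
      ∑ q ∈ range Q, ∑ k ∈ range Q, ∑ n ∈ range (2 * Q - 1),
        (conj (z r ^ (n + 1)) * z r ^ (q + k + 1)) * ⟪w (U ^ (n + 1)) (bv q), ev k⟫_ℂ := by
    intro r
    have h1 : w (X r) (ξ r) = ∑ q ∈ range Q, ∑ n ∈ range (2 * Q - 1),
        (z r ^ (n + 1) * conj (z r ^ (q + 1))) • w (U ^ (n + 1)) (bv q) := by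
      rw [hXdef, hξ]
      simp only [map_sum, map_smul]
      refine sum_congr rfl fun q hq => ?_
      rw [_root_.sum_apply, smul_sum]
      refine sum_congr rfl fun n hn => ?_
      rw [smul_apply, smul_smul, mul_comm]
    rw [h1, sum_inner]
    refine sum_congr rfl fun q _ => ?_
    rw [sum_inner, hζ]
    simp only [inner_sum]
    rw [sum_comm]
    refine sum_congr rfl fun k _ => ?_
    refine sum_congr rfl fun n _ => ?_
    rw [inner_smul_left, inner_smul_right, map_mul, Complex.conj_conj]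
    rw [show q + k + 1 = (q + 1) + k by ring, pow_add (z r) (q + 1) k]
    ring
  have hsum : ∑ r ∈ range (3 * Q), ⟪w (X r) (ξ r), ζ r⟫_ℂ =
      ((3 * Q : ℕ) : ℂ) * ((Q : ℂ) ^ 2 * ⟪θ, η⟫_ℂ) := by
    have h1 : ∀ q ∈ range Q, ∀ k ∈ range Q,
        ∑ r ∈ range (3 * Q), ∑ n ∈ range (2 * Q - 1),
          (conj (z r ^ (n + 1)) * z r ^ (q + k + 1)) * ⟪w (U ^ (n + 1)) (bv q), ev k⟫_ℂ =
        ((3 * Q : ℕ) : ℂ) * ⟪θ, η⟫_ℂ := by
      intro q hq k hk
      rw [mem_range] at hq hk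
      rw [sum_comm]
      have h2 : ∀ n ∈ range (2 * Q - 1), ∑ r ∈ range (3 * Q),
          (conj (z r ^ (n + 1)) * z r ^ (q + k + 1)) * ⟪w (U ^ (n + 1)) (bv q), ev k⟫_ℂ =
          if q + k = n then ((3 * Q : ℕ) : ℂ) * ⟪w (U ^ (n + 1)) (bv q), ev k⟫_ℂ else 0 := by
        intro n hn
        rw [mem_range] at hn
        rw [← sum_mul, hz (n + 1) (q + k + 1) (by omega) (by omega)]
        by_cases h : q + k = n
        · rw [if_pos h, if_pos (by omega)]
        · rw [if_neg h, if_neg (by omega), zero_mul]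
      rw [sum_congr rfl h2, sum_ite_eq, if_pos (by rw [mem_range]; omega), hin]
    rw [sum_congr rfl fun r _ => hexp r, sum_comm]
    have h3 : ∀ q ∈ range Q, ∑ r ∈ range (3 * Q), ∑ k ∈ range Q, ∑ n ∈ range (2 * Q - 1),
        (conj (z r ^ (n + 1)) * z r ^ (q + k + 1)) * ⟪w (U ^ (n + 1)) (bv q), ev k⟫_ℂ =
        (Q : ℂ) * (((3 * Q : ℕ) : ℂ) * ⟪θ, η⟫_ℂ) := by
      intro q hq
      rw [sum_comm, sum_congr rfl fun k hk => h1 q hq k hk, sum_const, card_range, nsmul_eq_mul]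
    rw [sum_congr rfl h3, sum_const, card_range, nsmul_eq_mul]
    ring
  -- bounds for `X r`
  set T : ℝ := 2 * Q * (t 1).re + 4 * Q * ∑ k ∈ range (2 * Q), ‖t (U ^ (k + 1))‖ with hT
  have hXn : ∀ r, ‖X r‖ ≤ 2 * Q := by
    intro r
    rw [hXdef]
    simp only
    refine (norm_sum_le _ _).trans ?_
    have h1 : ∑ n ∈ range (2 * Q - 1), ‖z r ^ (n + 1) • U ^ (n + 1)‖ ≤
        ∑ n ∈ range (2 * Q - 1), (1 : ℝ) := by
      refine sum_le_sum fun n _ => ?_
      rw [norm_smul, norm_pow, hz1, one_pow, one_mul]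
      exact hnormU _
    refine h1.trans ?_
    rw [sum_const, card_range, nsmul_eq_mul, mul_one]
    have h2 : ((2 * Q - 1 : ℕ) : ℝ) ≤ ((2 * Q : ℕ) : ℝ) := by
      exact_mod_cast Nat.sub_le _ _
    refine h2.trans ?_
    push_cast
    exact le_refl _
  have hXt : ∀ r, (t (star (X r) * X r)).re ≤ T := by
    intro r
    have h1 : t (star (X r) * X r) = ∑ n ∈ range (2 * Q - 1), ∑ m ∈ range (2 * Q - 1),
        (conj (z r ^ (n + 1)) * z r ^ (m + 1)) * t (star (U ^ (n + 1)) * U ^ (m + 1)) := by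
      rw [hXdef]
      simp only
      rw [star_sum, sum_mul_sum, map_sum]
      refine sum_congr rfl fun n _ => ?_
      rw [map_sum]
      refine sum_congr rfl fun m _ => ?_
      rw [star_smul, smul_mul_smul_comm, map_smul, smul_eq_mul]
      rfl
    have hzz : ∀ n, conj (z r ^ n) * z r ^ n = 1 := by
      intro n
      rw [mul_comm, Complex.mul_conj, Complex.normSq_eq_norm_sq, norm_pow, hz1]
      simp
    have hnz : ∀ n m, ‖conj (z r ^ n) * z r ^ m‖ = 1 := by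
      intro n m
      rw [norm_mul, Complex.norm_conj, norm_pow, norm_pow, hz1]
      simp
    have h2 : ∀ n m, ((conj (z r ^ (n + 1)) * z r ^ (m + 1)) *
        t (star (U ^ (n + 1)) * U ^ (m + 1))).re ≤
        (if n = m then (t 1).re else 0) +
        ((if n < m then ‖t (U ^ (m - n))‖ else 0) + (if m < n then ‖t (U ^ (n - m))‖ else 0)) := by
      intro n m
      rcases lt_trichotomy n m with h | h | h
      · rw [if_neg h.ne, if_pos h, if_neg h.not_gt, zero_add, add_zero]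
        have h3 : star (U ^ (n + 1)) * U ^ (m + 1) = U ^ (m - n) := by
          have h4 : m + 1 = (n + 1) + (m - n) := by omega
          rw [h4, pow_add U (n + 1) (m - n), ← mul_assoc, hpow, one_mul]
        rw [h3]
        refine (Complex.re_le_norm _).trans ?_
        rw [norm_mul, hnz, one_mul]
      · subst h
        rw [if_pos rfl, if_neg (lt_irrefl _), hzz, hpow, one_mul, add_zero, add_zero]
      · rw [if_neg h.ne', if_neg h.not_gt, if_pos h, zero_add, zero_add]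
        have h3 : star (U ^ (n + 1)) * U ^ (m + 1) = star (U ^ (n - m)) := by
          have h4 : n + 1 = (m + 1) + (n - m) := by omega
          rw [h4, pow_add U (m + 1) (n - m), star_mul, mul_assoc, hpow, mul_one]
        rw [h3]
        refine (Complex.re_le_norm _).trans ?_
        rw [norm_mul, hnz, one_mul, ht, Complex.norm_conj]
    have hSg0 : 0 ≤ ∑ k ∈ range (2 * Q), ‖t (U ^ (k + 1))‖ := sum_nonneg fun _ _ => norm_nonneg _
    have hM : ((2 * Q - 1 : ℕ) : ℝ) ≤ 2 * Q := by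
      have h3 : ((2 * Q - 1 : ℕ) : ℝ) ≤ ((2 * Q : ℕ) : ℝ) := by
        exact_mod_cast Nat.sub_le _ _
      refine h3.trans ?_
      push_cast
      exact le_refl _
    rw [h1, Complex.re_sum]
    have h5 : ∀ n ∈ range (2 * Q - 1), (∑ m ∈ range (2 * Q - 1),
        (conj (z r ^ (n + 1)) * z r ^ (m + 1)) * t (star (U ^ (n + 1)) * U ^ (m + 1))).re ≤
        (t 1).re + 2 * ∑ k ∈ range (2 * Q), ‖t (U ^ (k + 1))‖ := by
      intro n hn
      rw [Complex.re_sum]
      refine (sum_le_sum fun m _ => h2 n m).trans ?_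
      rw [sum_add_distrib, sum_add_distrib, sum_ite_eq, if_pos hn]
      have h6 := det_count1 (fun k => ‖t (U ^ k)‖) (fun k => norm_nonneg _) (2 * Q - 1) (2 * Q) n
        (by omega)
      have h7 := det_count2 (fun k => ‖t (U ^ k)‖) (fun k => norm_nonneg _) (2 * Q - 1) (2 * Q) n
        (by omega) (mem_range.1 hn)
      linarith
    refine (sum_le_sum h5).trans ?_
    rw [sum_const, card_range, nsmul_eq_mul, hT]
    have h8 : ((2 * Q - 1 : ℕ) : ℝ) * ((t 1).re + 2 * ∑ k ∈ range (2 * Q), ‖t (U ^ (k + 1))‖) ≤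
        (2 * Q) * ((t 1).re + 2 * ∑ k ∈ range (2 * Q), ‖t (U ^ (k + 1))‖) :=
      mul_le_mul_of_nonneg_right hM (by positivity)
    refine h8.trans (le_of_eq ?_)
    ring
  set D : ℝ := 4 * Q ^ 2 * a + b * T with hD
  have hT0 : 0 ≤ T := by
    rw [hT]
    have hSg0 : 0 ≤ ∑ k ∈ range (2 * Q), ‖t (U ^ (k + 1))‖ := sum_nonneg fun _ _ => norm_nonneg _
    positivity
  have hD0 : 0 ≤ D := by
    rw [hD]
    positivity
  have hE : ∀ r ∈ range (3 * Q), ‖⟪w (X r) (ξ r), ζ r⟫_ℂ‖ ^ 2 ≤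
      (D * (Q₂ (ξ r) (ξ r)).re) * (Q₁ (ζ r) (ζ r)).re := by
    intro r _
    refine (hX (X r) (ξ r) (ζ r)).trans ?_
    refine mul_le_mul_of_nonneg_right ?_ (hQ₁.pos _)
    refine mul_le_mul_of_nonneg_right ?_ (hQ₂.pos _)
    have h1 : ‖X r‖ ^ 2 ≤ (2 * (Q : ℝ)) ^ 2 := pow_le_pow_left₀ (norm_nonneg _) (hXn r) 2
    have h2 := mul_le_mul_of_nonneg_left h1 ha
    have h3 := mul_le_mul_of_nonneg_left (hXt r) hb
    rw [hD]
    nlinarith
  -- Cauchy-Schwarz
  have hCS : (∑ r ∈ range (3 * Q), ‖⟪w (X r) (ξ r), ζ r⟫_ℂ‖) ^ 2 ≤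
      (∑ r ∈ range (3 * Q), D * (Q₂ (ξ r) (ξ r)).re) *
        ∑ r ∈ range (3 * Q), (Q₁ (ζ r) (ζ r)).re := by
    refine Finset.sum_sq_le_sum_mul_sum_of_sq_le_mul _ ?_ ?_ hE
    · intro r _
      exact mul_nonneg hD0 (hQ₂.pos _)
    · intro r _
      exact hQ₁.pos _
  rw [← mul_sum, hξs, hζs] at hCS
  have h3Q : (0 : ℝ) < ((3 * Q : ℕ) : ℝ) := by
    have : 0 < 3 * Q := by omega
    exact_mod_cast this
  have hfin : (((3 * Q : ℕ) : ℝ) * ((Q : ℝ) ^ 2 * ‖⟪θ, η⟫_ℂ‖)) ^ 2 ≤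
      (∑ r ∈ range (3 * Q), ‖⟪w (X r) (ξ r), ζ r⟫_ℂ‖) ^ 2 := by
    refine pow_le_pow_left₀ (by positivity) ?_ 2
    have h1 := norm_sum_le (range (3 * Q)) (fun r => ⟪w (X r) (ξ r), ζ r⟫_ℂ)
    rw [hsum, norm_mul, norm_mul, norm_pow, Complex.norm_natCast, Complex.norm_natCast] at h1
    exact h1
  have hfin2 := hfin.trans hCS
  have e1 : (((3 * Q : ℕ) : ℝ) * ((Q : ℝ) ^ 2 * ‖⟪θ, η⟫_ℂ‖)) ^ 2 =
      (((3 * Q : ℕ) : ℝ)) ^ 2 * ((Q : ℝ) ^ 2 * ‖⟪θ, η⟫_ℂ‖) ^ 2 := by ring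
  have e2 : D * (((3 * Q : ℕ) : ℝ) * ∑ q ∈ range Q, (Q₂ (bv q) (bv q)).re) *
      (((3 * Q : ℕ) : ℝ) * ∑ q ∈ range Q, (Q₁ (ev q) (ev q)).re) =
      (((3 * Q : ℕ) : ℝ)) ^ 2 * (D * (∑ q ∈ range Q, (Q₂ (bv q) (bv q)).re) *
        ∑ q ∈ range Q, (Q₁ (ev q) (ev q)).re) := by ring
  rw [e1, e2] at hfin2
  exact le_of_mul_le_mul_left hfin2 (by positivity)

end Y576.D3
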